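import Pool.Agent.H336R2.V.Main

/-!
# A lower bound for the ratio in Hooley's conjecture, for every modulus

Hooley's conjecture says that the ratio `G(X,Q) / (X log Q)` tends to one, uniformly for `X^(1/2+ε) < Q < X`. Here it is
shown, without any hypothesis, that for every `θ > 2/3` the lower limit of the ratio is at least `3/2 - 1/θ > 0`,
uniformly for ALL integers `Q` with `X^θ ≤ Q ≤ X`; for `Q = X^(1-o(1))` the lower limit is at least `1/2`. The proof is in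
the starting library `H336R2/V`.
-/

set_option autoImplicit false

namespace Pool.Agent.Results.MP_5d318d_nt.HooleyRatioEveryModulus

open Finset

/-- `ψ(X; Q, A) = ∑_{n ≤ X, n ≡ A mod Q} Λ(n)` for `0 ≤ A < Q`. -/
noncomputable def psiAP (X : ℝ) (Q A : ℕ) : ℝ :=
  ∑ n ∈ (Icc 1 ⌊X⌋₊).filter (fun n => n % Q = A), ArithmeticFunction.vonMangoldt n

/-- `G(X,Q) = ∑_{A mod Q, (A,Q)=1} (ψ(X;Q,A) - X/φ(Q))²`, the sum of squares of the problem. -/
noncomputable def G (X : ℝ) (Q : ℕ) : ℝ :=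
  ∑ A ∈ (range Q).filter (fun A => Nat.Coprime A Q), (psiAP X Q A - X / (Nat.totient Q : ℝ)) ^ 2

lemma G_eq (X : ℝ) (Q : ℕ) : G X Q = H336V.GV X Q := by
  unfold G H336V.GV
  apply sum_congr rfl
  intro A hA
  rw [mem_filter, mem_range] at hA
  have h : psiAP X Q A = H336V.psiA X Q A := by
    unfold psiAP H336V.psiA
    apply sum_congr _ (fun _ _ => rfl)
    apply filter_congr
    intro n _
    unfold Nat.ModEq
    rw [Nat.mod_eq_of_lt hA.1]
  rw [h]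

/-- **The ratio in Hooley's conjecture, every modulus.** (1) For `θ > 0` and `ε > 0` there is `X₀` such that for all real
`X ≥ X₀` and ALL integers `Q` with `X^θ ≤ Q ≤ X` one has `G(X,Q) / (X log Q) ≥ 3/2 - 1/θ - ε`. (2) For `ε > 0` there
are `η > 0` and `X₀` such that for `X ≥ X₀` and all integers `Q` with `X^(1-η) ≤ Q ≤ X` one has
`G(X,Q) / (X log Q) ≥ 1/2 - ε`. -/
theorem result :
    (∀ θ ε : ℝ, 0 < θ → 0 < ε → ∃ X₀ : ℝ, ∀ X : ℝ, X₀ ≤ X → ∀ Q : ℕ, X ^ θ ≤ (Q : ℝ) → (Q : ℝ) ≤ X →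
      3 / 2 - 1 / θ - ε ≤ G X Q / (X * Real.log Q)) ∧
    (∀ ε : ℝ, 0 < ε → ∃ η X₀ : ℝ, 0 < η ∧ ∀ X : ℝ, X₀ ≤ X → ∀ Q : ℕ, X ^ (1 - η) ≤ (Q : ℝ) → (Q : ℝ) ≤ X →
      1 / 2 - ε ≤ G X Q / (X * Real.log Q)) := by
  have h1 : ∀ θ ε : ℝ, 0 < θ → 0 < ε → ∃ X₀ : ℝ, ∀ X : ℝ, X₀ ≤ X → ∀ Q : ℕ, X ^ θ ≤ (Q : ℝ) → (Q : ℝ) ≤ X →
      3 / 2 - 1 / θ - ε ≤ G X Q / (X * Real.log Q) := by
    intro θ ε hθ hε
    obtain ⟨X₀, h⟩ := H336V.main (ε * θ) (by positivity)
    refine ⟨max X₀ 2, fun X hX Q hQ hQX => ?_⟩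
    have hX0 : X₀ ≤ X := le_trans (le_max_left _ _) hX
    have hX2 : (2 : ℝ) ≤ X := le_trans (le_max_right _ _) hX
    have hXp : 0 < X := by linarith
    have hQ1' : (1 : ℝ) < (Q : ℝ) := lt_of_lt_of_le (Real.one_lt_rpow (by linarith) hθ) hQ
    have hQ1 : 1 ≤ Q := by
      have : (0 : ℝ) < Q := by linarith
      exact_mod_cast this
    have hlQ : 0 < Real.log Q := Real.log_pos hQ1'
    have hl : θ * Real.log X ≤ Real.log Q := by
      rw [← Real.log_rpow hXp]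
      exact Real.log_le_log (by positivity) hQ
    have hm := h X hX0 Q hQ1 hQX
    rw [← G_eq] at hm
    rw [le_div_iff₀ (by positivity)]
    refine le_trans ?_ hm
    have h2 : Real.log X ≤ 1 / θ * Real.log Q := by
      rw [one_div, ← div_eq_inv_mul, le_div_iff₀ hθ]
      linarith
    have h3 : ε * θ * Real.log X ≤ ε * Real.log Q := by
      calc ε * θ * Real.log X = ε * (θ * Real.log X) := by ring
        _ ≤ _ := mul_le_mul_of_nonneg_left hl hε.le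
    have h4 : (3 / 2 - 1 / θ - ε) * Real.log Q ≤ 3 / 2 * Real.log Q - Real.log X - ε * θ * Real.log X := by
      have : (3 / 2 - 1 / θ - ε) * Real.log Q = 3 / 2 * Real.log Q - 1 / θ * Real.log Q - ε * Real.log Q := by ring
      rw [this]
      linarith
    calc (3 / 2 - 1 / θ - ε) * (X * Real.log Q) = X * ((3 / 2 - 1 / θ - ε) * Real.log Q) := by ring
      _ ≤ _ := mul_le_mul_of_nonneg_left h4 hXp.le
  refine ⟨h1, fun ε hε => ?_⟩
  obtain ⟨e, he0, he1, he2⟩ : ∃ e : ℝ, 0 < e ∧ e ≤ 1 ∧ e ≤ ε := ⟨min 1 ε, by positivity, min_le_left _ _, min_le_right _ _⟩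
  obtain ⟨X₀, h⟩ := h1 (1 - e / 4) (e / 2) (by linarith) (by positivity)
  refine ⟨e / 4, X₀, by positivity, fun X hX Q hQ hQX => le_trans ?_ (h X hX Q hQ hQX)⟩
  have h2 : 1 / (1 - e / 4) ≤ 1 + e / 2 := by
    rw [div_le_iff₀ (by linarith)]
    nlinarith
  linarith

end Pool.Agent.Results.MP_5d318d_nt.HooleyRatioEveryModulus
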